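import Mathlib
import Pool.Agent.Helper2.NNQ.Stm

/-!
# Upper bound of the measure of the intersections (part U2)

Proof of `Pool.Agent.Helper2.NNQ.S_U2` from `S_COVER`, used twice.
-/

set_option autoImplicit false

open MeasureTheory Filter Topology Finset
open Pool.Agent.Helper2.NNQ

namespace Pool.Agent.Helper61A.NNQ

/-- restriction of the interval -/
theorem Reg.mono {g : ℝ → ℝ} {σ A B a b : ℝ} (h : Reg g σ A B) (ha : A ≤ a) (hb : b ≤ B) :
    Reg g σ a b where
  pos := h.pos
  lo := fun x y hx hxy hy => h.lo x y (ha.trans hx) hxy (hy.trans hb)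
  hi := fun x y hx hxy hy => h.hi x y (ha.trans hx) hxy (hy.trans hb)

/-- the measure from COVER -/
theorem meas {C : ℝ} (hcov : ∀ (k : ℤ) (g : ℝ → ℝ) (σ a b : ℝ), Reg g σ a b → a < b →
      4 ≤ min 1 (σ * (b - a)) * Real.exp (g a) → ∃ T : Finset (ℝ × ℝ),
    (∀ p ∈ T, a ≤ p.2 ∧ p.2 ≤ p.1 ∧ p.1 + 1 / (σ * Real.exp (g p.2)) ≤ b) ∧
    PP g k ∩ Set.Icc a b ⊆ ⋃ p ∈ T, Set.Icc p.1 (p.1 + 1 / (σ * Real.exp (g p.2))) ∧
    ∑ p ∈ T, 1 / (σ * Real.exp (g p.2)) ≤ C * (b - a) / Real.log (min 1 (σ * (b - a)) * Real.exp (g a)))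
    (k : ℤ) (g : ℝ → ℝ) (σ a b : ℝ) (hR : Reg g σ a b) (hab : a < b)
    (h4 : 4 ≤ min 1 (σ * (b - a)) * Real.exp (g a)) :
    volume.real (PP g k ∩ Set.Icc a b) ≤
      C * (b - a) / Real.log (min 1 (σ * (b - a)) * Real.exp (g a)) := by
  obtain ⟨T, -, hsub, hsum⟩ := hcov k g σ a b hR hab h4
  refine le_trans ?_ hsum
  have hfin : volume (⋃ p ∈ T, Set.Icc p.1 (p.1 + 1 / (σ * Real.exp (g p.2)))) ≠ ⊤ := by
    refine ne_top_of_le_ne_top ?_ (measure_biUnion_finset_le _ _)
    exact ENNReal.sum_ne_top.2 fun p _ => measure_Icc_lt_top.ne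
  refine (measureReal_mono hsub hfin).trans ?_
  refine (measureReal_biUnion_finset_le _ _).trans ?_
  apply Finset.sum_le_sum
  intro p _
  have h1 : 0 ≤ 1 / (σ * Real.exp (g p.2)) := by
    have := hR.pos
    positivity
  rw [Real.volume_real_Icc_of_le (by linarith)]
  linarith

theorem t_U2 (h : S_COVER) : S_U2 := by
  obtain ⟨C, hC, hcov⟩ := h
  refine ⟨16 * C ^ 2, by positivity, ?_⟩
  intro k g σ A B hG
  obtain ⟨hAB, n₁, hn3, hn, hmn⟩ := hG
  set η : ℝ := min 1 ((B - A) / 2) with hη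
  have hη0 : 0 < η := lt_min one_pos (by linarith)
  set n₂ : ℕ := ⌈4 * (|Real.log η| + Real.log 4)⌉₊ with hn₂
  refine ⟨max (max n₁ 64) n₂, ?_⟩
  intro m n hm hmn'
  have hm1 : n₁ ≤ m := (le_max_left _ _).trans ((le_max_left _ _).trans hm)
  have hm64 : 64 ≤ m := (le_max_right _ _).trans ((le_max_left _ _).trans hm)
  have hm2 : n₂ ≤ m := (le_max_right _ _).trans hm
  obtain ⟨hRm, hσm, hgm⟩ := hn m hm1
  obtain ⟨hRn, hσn, hgn⟩ := hn n (hm1.trans hmn'.le)
  obtain ⟨hσmn, hgmn⟩ := hmn m n hm1 hmn'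
  have hmR : (64 : ℝ) ≤ m := by exact_mod_cast hm64
  have hnR : (64 : ℝ) ≤ n := by exact_mod_cast (hm64.trans hmn'.le)
  have hnm : (1 : ℝ) ≤ (n : ℝ) - m := by
    have : m + 1 ≤ n := hmn'
    have : ((m + 1 : ℕ) : ℝ) ≤ n := by exact_mod_cast this
    push_cast at this
    linarith
  have hlog64 : (4 : ℝ) ≤ Real.log 64 := by
    have h1 : Real.log 64 = 6 * Real.log 2 := by
      have : (64 : ℝ) = 2 ^ 6 := by norm_num
      rw [this, Real.log_pow]
      norm_num
    have := Real.log_two_gt_d9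
    rw [h1]
    linarith
  have hlm : (4 : ℝ) ≤ Real.log m := hlog64.trans (Real.log_le_log (by norm_num) hmR)
  have hln : (4 : ℝ) ≤ Real.log n := hlog64.trans (Real.log_le_log (by norm_num) hnR)
  have hlog4 : 0 < Real.log 4 := Real.log_pos (by norm_num)
  have hlog4' : Real.log 4 ≤ 2 := by
    have h1 : Real.log 4 = 2 * Real.log 2 := by
      have : (4 : ℝ) = 2 ^ 2 := by norm_num
      rw [this, Real.log_pow]
      norm_num
    have := Real.log_two_lt_d9
    rw [h1]
    linarith
  have hmlog : 4 * (|Real.log η| + Real.log 4) ≤ m * Real.log m := by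
    have h1 : 4 * (|Real.log η| + Real.log 4) ≤ n₂ := Nat.le_ceil _
    have h2 : (n₂ : ℝ) ≤ m := by exact_mod_cast hm2
    have h3 : (m : ℝ) ≤ m * Real.log m := by nlinarith
    linarith
  have hmlog0 : 0 < m * Real.log m := by positivity
  -- the first cover
  have hmin : η ≤ min 1 (σ m * (B - A)) := by
    apply min_le_min le_rfl
    have : 0 < B - A := by linarith
    nlinarith
  have hA : A ∈ Set.Icc A B := ⟨le_rfl, hAB.le⟩
  have hexp1 : Real.exp (1 / 2 * (m * Real.log m)) ≤ Real.exp (g m A) := Real.exp_le_exp.2 (hgm A hA).1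
  have hval : η * Real.exp (1 / 2 * (m * Real.log m)) ≤ min 1 (σ m * (B - A)) * Real.exp (g m A) := by
    apply mul_le_mul hmin hexp1 (Real.exp_pos _).le
    exact hη0.le.trans hmin
  have hval0 : 0 < η * Real.exp (1 / 2 * (m * Real.log m)) := mul_pos hη0 (Real.exp_pos _)
  have hlogval : Real.log (η * Real.exp (1 / 2 * (m * Real.log m))) =
      Real.log η + 1 / 2 * (m * Real.log m) := by
    rw [Real.log_mul hη0.ne' (Real.exp_pos _).ne', Real.log_exp]
  have habs : -|Real.log η| ≤ Real.log η := neg_abs_le _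
  have h4 : 4 ≤ min 1 (σ m * (B - A)) * Real.exp (g m A) := by
    refine le_trans ?_ hval
    rw [← Real.log_le_log_iff (by norm_num) hval0, hlogval]
    nlinarith
  obtain ⟨T, hT, hsub, hsum⟩ := hcov k (g m) (σ m) A B hRm hAB h4
  have hlow1 : 1 / 4 * (m * Real.log m) ≤ Real.log (min 1 (σ m * (B - A)) * Real.exp (g m A)) := by
    refine le_trans ?_ (Real.log_le_log hval0 hval)
    rw [hlogval]
    linarith
  have hsum' : ∑ p ∈ T, 1 / (σ m * Real.exp (g m p.2)) ≤ 4 * C * (B - A) / (m * Real.log m) := by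
    refine hsum.trans ?_
    have h5 : 0 < 1 / 4 * (m * Real.log m) := by positivity
    calc C * (B - A) / Real.log (min 1 (σ m * (B - A)) * Real.exp (g m A))
        ≤ C * (B - A) / (1 / 4 * (m * Real.log m)) := by
          apply div_le_div_of_nonneg_left _ h5 hlow1
          have : 0 < B - A := by linarith
          positivity
      _ = 4 * C * (B - A) / (m * Real.log m) := by
          field_simp
  -- the second cover
  have hp : ∀ p ∈ T, volume.real (PP (g n) k ∩ Set.Icc p.1 (p.1 + 1 / (σ m * Real.exp (g m p.2)))) ≤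
      4 * C / (((n : ℝ) - m) * Real.log n) * (1 / (σ m * Real.exp (g m p.2))) := by
    intro p hpT
    obtain ⟨hp1, hp2, hp3⟩ := hT p hpT
    set δ : ℝ := 1 / (σ m * Real.exp (g m p.2)) with hδ
    have hδ0 : 0 < δ := by
      have := hRm.pos
      positivity
    have hR := Reg.mono hRn (hp1.trans hp2) hp3
    have hp2B : p.2 ∈ Set.Icc A B := ⟨hp1, by linarith⟩
    have hp1B : p.1 ∈ Set.Icc A B := ⟨hp1.trans hp2, by linarith⟩
    have hmono : g n p.2 ≤ g n p.1 := by
      have h6 := hRn.lo p.2 p.1 hp1 hp2 hp1B.2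
      have h7 : 0 ≤ σ n * (p.1 - p.2) := mul_nonneg hRn.pos.le (by linarith)
      linarith
    have hlogn0 : 0 < Real.log n := by linarith
    have hE0 : 0 < Real.exp (1 / 2 * (((n : ℝ) - m) * Real.log n)) := Real.exp_pos _
    have hlow : 1 / 2 * Real.exp (1 / 2 * (((n : ℝ) - m) * Real.log n)) ≤
        min 1 (σ n * (p.1 + δ - p.1)) * Real.exp (g n p.1) := by
      rw [min_mul_of_nonneg _ _ (Real.exp_pos _).le]
      apply le_min
      · have h6 : Real.exp (1 / 2 * (((n : ℝ) - m) * Real.log n)) ≤ Real.exp (g n p.1) := by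
          apply Real.exp_le_exp.2
          refine le_trans ?_ (hgn p.1 hp1B).1
          have : ((n : ℝ) - m) * Real.log n ≤ n * Real.log n := by
            apply mul_le_mul_of_nonneg_right _ hlogn0.le
            linarith
          linarith
        linarith
      · have h6 : Real.exp (1 / 2 * (((n : ℝ) - m) * Real.log n)) ≤ Real.exp (g n p.1 - g m p.2) := by
          apply Real.exp_le_exp.2
          have := hgmn p.2 hp2B
          linarith
        have h7 : 1 / 2 * Real.exp (g n p.1 - g m p.2) ≤ σ n * (p.1 + δ - p.1) * Real.exp (g n p.1) := by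
          have h8 : p.1 + δ - p.1 = δ := by ring
          rw [h8, hδ, Real.exp_sub]
          have h9 : (1 / 2 : ℝ) ≤ σ n / σ m := by
            rw [le_div_iff₀ hRm.pos]
            linarith
          have h10 : σ n * (1 / (σ m * Real.exp (g m p.2))) * Real.exp (g n p.1) =
              σ n / σ m * (Real.exp (g n p.1) / Real.exp (g m p.2)) := by
            have := hRm.pos.ne'
            field_simp
          rw [h10]
          apply mul_le_mul_of_nonneg_right h9 (by positivity)
        linarith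
    have hlow0 : 0 < 1 / 2 * Real.exp (1 / 2 * (((n : ℝ) - m) * Real.log n)) := by positivity
    have hloglow : Real.log (1 / 2 * Real.exp (1 / 2 * (((n : ℝ) - m) * Real.log n))) =
        Real.log (1 / 2) + 1 / 2 * (((n : ℝ) - m) * Real.log n) := by
      rw [Real.log_mul (by norm_num) (Real.exp_pos _).ne', Real.log_exp]
    have hhalf : -1 ≤ Real.log (1 / 2) := by
      rw [one_div, Real.log_inv]
      have := Real.log_two_lt_d9
      linarith
    have hprod : 4 * ((n : ℝ) - m) ≤ ((n : ℝ) - m) * Real.log n := by nlinarith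
    have hbig : 64 ≤ Real.exp (1 / 2 * (((n : ℝ) - m) * Real.log n)) ^ 2 := by
      rw [← Real.exp_nat_mul]
      have h6 : Real.exp (Real.log n) ≤ Real.exp (((2 : ℕ) : ℝ) * (1 / 2 * (((n : ℝ) - m) * Real.log n))) := by
        apply Real.exp_le_exp.2
        push_cast
        nlinarith
      rw [Real.exp_log (by linarith)] at h6
      linarith
    have h4' : 4 ≤ min 1 (σ n * (p.1 + δ - p.1)) * Real.exp (g n p.1) := by
      refine le_trans ?_ hlow
      nlinarith
    have h5 := meas hcov k (g n) (σ n) p.1 (p.1 + δ) hR (by linarith) h4'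
    refine h5.trans ?_
    have h6 : 1 / 4 * (((n : ℝ) - m) * Real.log n) ≤
        Real.log (min 1 (σ n * (p.1 + δ - p.1)) * Real.exp (g n p.1)) := by
      refine le_trans ?_ (Real.log_le_log hlow0 hlow)
      rw [hloglow]
      linarith
    have h7 : 0 < 1 / 4 * (((n : ℝ) - m) * Real.log n) := by nlinarith
    have h8 : p.1 + δ - p.1 = δ := by ring
    calc C * (p.1 + δ - p.1) / Real.log (min 1 (σ n * (p.1 + δ - p.1)) * Real.exp (g n p.1))
        ≤ C * (p.1 + δ - p.1) / (1 / 4 * (((n : ℝ) - m) * Real.log n)) := by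
          apply div_le_div_of_nonneg_left _ h7 h6
          rw [h8]
          positivity
      _ = 4 * C / (((n : ℝ) - m) * Real.log n) * δ := by
          rw [h8]
          have h9 : ((n : ℝ) - m) ≠ 0 := by linarith
          have h10 : Real.log n ≠ 0 := hlogn0.ne'
          field_simp
  -- the union
  have hsub2 : PP (g m) k ∩ PP (g n) k ∩ Set.Icc A B ⊆
      ⋃ p ∈ T, (PP (g n) k ∩ Set.Icc p.1 (p.1 + 1 / (σ m * Real.exp (g m p.2)))) := by
    rintro x ⟨⟨hx1, hx2⟩, hx3⟩
    have h5 := hsub ⟨hx1, hx3⟩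
    simp only [Set.mem_iUnion] at h5 ⊢
    obtain ⟨p, hpT, hxp⟩ := h5
    exact ⟨p, hpT, hx2, hxp⟩
  have hfin : volume (⋃ p ∈ T, (PP (g n) k ∩ Set.Icc p.1 (p.1 + 1 / (σ m * Real.exp (g m p.2))))) ≠ ⊤ := by
    refine ne_top_of_le_ne_top ?_ (measure_biUnion_finset_le _ _)
    refine ENNReal.sum_ne_top.2 fun p _ => ?_
    exact ne_top_of_le_ne_top measure_Icc_lt_top.ne (measure_mono Set.inter_subset_right)
  have hnm0 : 0 < ((n : ℝ) - m) * Real.log n := by nlinarith
  calc volume.real (PP (g m) k ∩ PP (g n) k ∩ Set.Icc A B)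
      ≤ volume.real (⋃ p ∈ T, (PP (g n) k ∩ Set.Icc p.1 (p.1 + 1 / (σ m * Real.exp (g m p.2))))) :=
        measureReal_mono hsub2 hfin
    _ ≤ ∑ p ∈ T, volume.real (PP (g n) k ∩ Set.Icc p.1 (p.1 + 1 / (σ m * Real.exp (g m p.2)))) :=
        measureReal_biUnion_finset_le _ _
    _ ≤ ∑ p ∈ T, 4 * C / (((n : ℝ) - m) * Real.log n) * (1 / (σ m * Real.exp (g m p.2))) :=
        Finset.sum_le_sum hp
    _ = 4 * C / (((n : ℝ) - m) * Real.log n) * ∑ p ∈ T, 1 / (σ m * Real.exp (g m p.2)) := by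
        rw [Finset.mul_sum]
    _ ≤ 4 * C / (((n : ℝ) - m) * Real.log n) * (4 * C * (B - A) / (m * Real.log m)) := by
        apply mul_le_mul_of_nonneg_left hsum' (by positivity)
    _ = 16 * C ^ 2 * (B - A) * (1 / (((m : ℝ) * Real.log m) * (((n : ℝ) - m) * Real.log n))) := by
        have h9 : ((n : ℝ) - m) ≠ 0 := by linarith
        have h10 : Real.log n ≠ 0 := by linarith
        have h11 : Real.log m ≠ 0 := by linarith
        have h12 : (m : ℝ) ≠ 0 := by linarith
        field_simp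
        ring

end Pool.Agent.Helper61A.NNQ
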